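import Mathlib
import Pool.Agent.MP_5f6c2d_pr.Speed

set_option autoImplicit false

open MeasureTheory Set Filter
open Pool.Agent.MP_5f6c2d_pr
open scoped ENNReal

namespace Pool.Agent.Results.MP_5f6c2d_pr.ExpTail

/-- For every colour law and every `ε > 0`, the probability that a walk of at most `n` steps along
tricolor edges from a given vertex moves by `ε n` in some coordinate is exponentially small. -/
theorem result (p : PMF (Fin 3)) (ε : ℝ) (hε : 0 < ε) :
    ∃ C c : ℝ, 0 < c ∧ ∀ (n : ℕ) (Q : Finset (Fin 3 → ℤ)),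
      Measure.infinitePi (fun _ : Fin 3 → ℤ => p.toMeasure)
        {ω | ∃ m : ℕ, 1 ≤ m ∧ m ≤ n ∧ ∃ y : ℕ → Finset (Fin 3 → ℤ), y 0 = Q ∧
          (∀ k < m, Step ω (y k) (y (k + 1))) ∧
          ∃ v ∈ y 0, ∃ w ∈ y m, ∃ i, ε * n ≤ |(w i : ℝ) - v i|} ≤
        ENNReal.ofReal (C * Real.exp (-c * n)) := by
  change ∃ C c : ℝ, 0 < c ∧ ∀ (n : ℕ) (Q : Finset W), PP W p.toMeasure
    (Far (fun v w => ∃ i, ε * n ≤ |(w i : ℝ) - v i|) n Q) ≤ _
  rcases colour_cases p.toMeasure with h | ⟨q, hq0, hq⟩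
  · refine ⟨0, 1, one_pos, fun n Q => le_trans (le_of_eq ?_) zero_le⟩
    rw [measure_eq_zero_iff_ae_notMem]
    filter_upwards [h] with ω hω ⟨m, h1, _, y, _, hs, _⟩
    exact hω _ _ (hs 0 h1)
  obtain ⟨K, hK⟩ := exists_nat_ge (4 / ε)
  have hK' : 4 ≤ K * ε := by rwa [div_le_iff₀ hε] at hK
  have hK0 : 0 < K := by
    rcases Nat.eq_zero_or_pos K with h | h
    · rw [h] at hK'; norm_num at hK'
    · exact h
  obtain ⟨l, hl, H⟩ := climb_bound hq hq0 K
  have hKl : (0 : ℝ) < K * l := by positivity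
  have hlog : 0 < Real.log 2 := Real.log_pos (by norm_num)
  set c := Real.log 2 / (K * l) with hc
  have hc0 : 0 < c := by positivity
  set n0 : ℝ := (8 * l + 16) / ε with hn0
  refine ⟨1536 * l + Real.exp (c * n0), c, hc0, fun n Q => ?_⟩
  have he := Real.exp_pos (-c * n)
  rcases le_total (n : ℝ) n0 with hn | hn
  · refine prob_le_one.trans ?_
    rw [ENNReal.one_le_ofReal, add_mul, ← Real.exp_add]
    have h1 : 1 ≤ Real.exp (c * n0 + -c * n) := Real.one_le_exp (by nlinarith)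
    have h2 : (0 : ℝ) ≤ 1536 * l * Real.exp (-c * n) := by positivity
    linarith
  set m := n / (K * l) + 1 with hm
  have hKl' : 0 < K * l := by positivity
  have m1 : n ≤ K * m * l := by
    have := Nat.lt_mul_div_succ n hKl'
    rw [← hm] at this
    nlinarith
  have m2 : (m : ℝ) ≤ n / (K * l) + 1 := by
    rw [hm]; push_cast
    have := @Nat.cast_div_le ℝ _ _ _ n (K * l)
    push_cast at this
    linarith
  have m3 : 2 * (((m : ℝ) + 1) * l + 4) ≤ ε * n := by
    have hl' : (0 : ℝ) < l := by exact_mod_cast hl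
    have hK1 : (0 : ℝ) < K := by exact_mod_cast hK0
    have a1 : (m : ℝ) * l ≤ n / K + l := by
      calc (m : ℝ) * l ≤ (n / (K * l) + 1) * l := mul_le_mul_of_nonneg_right m2 hl'.le
        _ = n / K + l := by field_simp
    have a2 : (n : ℝ) / K ≤ ε * n / 4 := by
      rw [div_le_div_iff₀ hK1 (by norm_num)]
      nlinarith [Nat.cast_nonneg (α := ℝ) n]
    rw [hn0, div_le_iff₀ hε] at hn
    nlinarith
  have sub : Far (fun v w => ∃ i, ε * n ≤ |(w i : ℝ) - v i|) n Q ⊆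
      Far (fun v w => ∃ i, 2 * (((m : ℤ) + 1) * l + 4) ≤ |w i - v i|) (K * m * l) Q := by
    rintro ω ⟨t, h1, ht, y, h0, hs, v, hv, w, hw, i, hR⟩
    refine ⟨t, h1, ht.trans m1, y, h0, hs, v, hv, w, hw, i, ?_⟩
    exact_mod_cast m3.trans hR
  refine (measure_mono sub).trans ((coord_bound (H m) Q).trans ?_)
  have e1 : (1536 : ℝ≥0∞) * (l * 2⁻¹ ^ m) = ENNReal.ofReal (1536 * (l * 2⁻¹ ^ m)) := by
    rw [ENNReal.ofReal_mul (by norm_num), ENNReal.ofReal_mul (by positivity),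
      ENNReal.ofReal_pow (by norm_num), ENNReal.ofReal_inv_of_pos (by norm_num)]
    simp
  rw [e1]
  refine ENNReal.ofReal_le_ofReal ?_
  have a1 : (2⁻¹ : ℝ) ^ m ≤ Real.exp (-c * n) := by
    have e2 : (2⁻¹ : ℝ) ^ m = Real.exp (-(Real.log 2) * m) := by
      rw [mul_comm, Real.exp_nat_mul, Real.exp_neg, Real.exp_log (by norm_num)]
    rw [e2, Real.exp_le_exp, hc]
    have a2 : (n : ℝ) / (K * l) ≤ m := by
      rw [div_le_iff₀ hKl]
      have : (n : ℝ) ≤ K * m * l := by exact_mod_cast m1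
      linarith
    have e3 : Real.log 2 / (K * l) * n = Real.log 2 * (n / (K * l)) := by ring
    rw [neg_mul, neg_mul, e3, neg_le_neg_iff]
    exact mul_le_mul_of_nonneg_left a2 hlog.le
  have a3 := Real.exp_pos (c * n0)
  have a4 : (0 : ℝ) ≤ l := Nat.cast_nonneg l
  nlinarith [mul_le_mul_of_nonneg_left a1 a4, mul_pos a3 he]

end Pool.Agent.Results.MP_5f6c2d_pr.ExpTail
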