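import Mathlib
import Pool.Agent.MP_5f6c2d_pr.Null
import Pool.Agent.MP_5f6c2d_pr.Ray

set_option autoImplicit false

open MeasureTheory Set Filter
open Pool.Agent.MP_5f6c2d_pr

namespace Pool.Agent.Results.MP_5f6c2d_pr.RayRecurrence

/-- For every colour law, almost surely every one-sided infinite tricolor path enters each
half-space `± x i ± x j < m` (with `i ≠ j`) infinitely often. -/
theorem result (p : PMF (Fin 3)) :
    ∀ᵐ ω ∂(Measure.infinitePi (fun _ : Fin 3 → ℤ => p.toMeasure)),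
      ∀ y : ℕ → Finset (Fin 3 → ℤ), Function.Injective y → (∀ k, Step ω (y k) (y (k + 1))) →
        ∀ i j : Fin 3, i ≠ j → ∀ a b : ℤ, (a = 1 ∨ a = -1) → (b = 1 ∨ b = -1) → ∀ m : ℤ,
          ∃ᶠ k in atTop, ∀ v ∈ y k, a * v i + b * v j < m := by
  change ∀ᵐ ω ∂(PP W p.toMeasure), _
  rcases colour_cases p.toMeasure with h | ⟨q, hq0, hq⟩
  · filter_upwards [h] with ω hω y _ hs
    exact absurd (hs 0) (hω _ _)
  have key : ∀ x : Fin 3 × Fin 3 × ℤ × ℤ, ∀ᵐ ω ∂(PP W p.toMeasure), x.1 ≠ x.2.1 →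
      (x.2.2.1 = 1 ∨ x.2.2.1 = -1) → (x.2.2.2 = 1 ∨ x.2.2.2 = -1) →
      ∀ y : ℕ → Finset W, Function.Injective y → (∀ k, Step ω (y k) (y (k + 1))) →
        ∀ m : ℤ, ∃ k, ∀ v ∈ y k, x.2.2.1 * v x.1 + x.2.2.2 * v x.2.1 < m := by
    rintro ⟨i, j, a, b⟩
    by_cases hx : i ≠ j ∧ (a = 1 ∨ a = -1) ∧ (b = 1 ∨ b = -1)
    swap
    · exact Eventually.of_forall (fun ω h1 h2 h3 => absurd ⟨h1, h2, h3⟩ hx)
    obtain ⟨F⟩ := exists_frame hx.1 hx.2.1 hx.2.2
    have h0 := ae_no_ray hq hq0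
    have h1 := h0
    rw [← PP_map_comp F.ι F.inj] at h0
    rw [← PP_map_comp (F.ι ∘ rf) (F.inj.comp rf_inj)] at h1
    filter_upwards [ae_of_ae_map (meas_comp _).aemeasurable h0,
      ae_of_ae_map (meas_comp _).aemeasurable h1] with ω a0 a1 _ _ _ y hy hs m
    obtain ⟨g, g0, hg⟩ := walk_states F (P := fun _ => True) trivial (fun _ _ => trivial)
      (fun k _ => hs k)
    have hg' : ∀ k, Good (ω ∘ F.ι) (g k) ∧ y k = (ch (g k)).image F.ι := by
      intro k
      rcases k with _ | k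
      · exact g0
      · exact (hg k trivial).1
    have gi : Function.Injective g := fun s t h => hy (by rw [(hg' s).2, (hg' t).2, h])
    have hk : ∃ k, (g k 0).1 ≤ m / 2 - 2 := by
      rcases ray_orbit gi (fun k => (hg' k).1) (fun k => (hg k trivial).2) with h | h
      · obtain ⟨k, hk⟩ := a0 (g 0) g0.1 (by rw [← funext h]; exact gi) (m / 2 - 2)
        rw [← h k] at hk
        have := L_near _ (hg' k).1.1 0
        exact ⟨k, by omega⟩
      · obtain ⟨k, hk⟩ := a1 (rf ∘ g 0) (good_rf _ g0.1) (by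
          intro s t hst
          have e : rf ∘ g s = rf ∘ g t := (h s).trans (hst.trans (h t).symm)
          exact gi (funext (fun c => rf_inj (congrFun e c)))) (m / 2 - 2)
        have e : o (ω ∘ F.ι ∘ rf) (rf ∘ g 0) k = rf ∘ g k := (h k).symm
        rw [e] at hk
        have := L_near _ (rf_facts _ (hg' k).1.1).1 0
        have e2 : ((rf ∘ g k) 0).1 = (g k 0).1 := rfl
        exact ⟨k, by omega⟩
    obtain ⟨k, hk⟩ := hk
    refine ⟨k, fun v hv => ?_⟩
    rw [(hg' k).2] at hv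
    obtain ⟨x, hx, rfl⟩ := Finset.mem_image.1 hv
    have e := F.lev x
    have := ch_lev (hg' k).1.1 hx
    omega
  filter_upwards [ae_all_iff.2 key] with ω hω y hy hs i j hij a b ha hb m
  rw [frequently_atTop]
  intro N
  obtain ⟨k, hk⟩ := hω (i, j, a, b) hij ha hb (fun k => y (N + k))
    (fun s t h => Nat.add_left_cancel (hy h)) (fun k => hs (N + k)) m
  exact ⟨N + k, by omega, hk⟩

end Pool.Agent.Results.MP_5f6c2d_pr.RayRecurrence
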